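import Pool.Agent.Work.MP_c53807_ag.Hedge.Main

/-!
Let `G ⊆ GL_N(ℂ)` be a connected linear algebraic group and `X = G · x₀ ≅ G / H` an orbit in
projective space that is not a point. If no closed subgroup `K` with `H ≤ K < G` has a quasi-affine
quotient `G / K`, then `X` contains a nondegenerate subvariety isomorphic to the projective line.
-/

open scoped LinearAlgebra.Projectivization

namespace Pool.Agent.Results.MP_c53807_ag.Epimorphic

theorem result (N : ℕ) (G : Subgroup (GL (Fin N) ℂ))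
    (hG : Kol68.GLClosed (G : Set (GL (Fin N) ℂ)))
    (hc : Kol68.GLConnected (G : Set (GL (Fin N) ℂ))) (x₀ : ℙ ℂ (Fin N → ℂ))
    (hx : ∃ g ∈ G, Kol68.act g x₀ ≠ x₀)
    (h : ∀ K : Subgroup (GL (Fin N) ℂ), Kol68.GLClosed (K : Set (GL (Fin N) ℂ)) →
      (∀ g ∈ G, Kol68.act g x₀ = x₀ → g ∈ K) → K < G → ¬ Kol54.QuasiAffineQuot G K) :
    ∃ C : Set (ℙ ℂ (Fin N → ℂ)), Kol68.SmoothRationalCurve C ∧ C ⊆ Kol68.orbit G x₀ ∧
      ¬ Kol68.Degenerate G x₀ C :=
  Kol54.main hG hc x₀ hx h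

end Pool.Agent.Results.MP_c53807_ag.Epimorphic
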