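import Pool.Agent.Work.MP_c53807_ag.GMain

/-!
Let `G` be a connected complex algebraic group acting algebraically and transitively on a
quasi-projective, simply connected variety `X ≅ G / H` that is not a point. If `X` contains a
proper nondegenerate subvariety, then it contains a nondegenerate subvariety isomorphic to the
projective line.
-/

open scoped LinearAlgebra.Projectivization

namespace Pool.Agent.Results.MP_c53807_ag.General

theorem result (L M : ℕ) (G : Set (ℙ ℂ (Fin L → ℂ))) [Group G] (hG : Kol68.AlgGroup G)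
    (hc : Kol68.PConnected G) (X : Set (ℙ ℂ (Fin M → ℂ))) [MulAction G X]
    (hX : Kol68.AlgAction G X) [MulAction.IsPretransitive G X]
    (hsc : @SimplyConnectedSpace X (TopologicalSpace.induced Subtype.val (Kol68.euclid (Fin M))))
    [Nontrivial X] (x₀ : X) (Z : Set (ℙ ℂ (Fin M → ℂ))) (hZ : Kol68.Subvariety Z) (hZX : Z ⊆ X)
    (hnd : ¬ Kol68.DegenerateIn G x₀ Z) :
    ∃ C : Set (ℙ ℂ (Fin M → ℂ)), Kol68.SmoothRationalCurve C ∧ C ⊆ X ∧
      ¬ Kol68.DegenerateIn G x₀ C :=
  Kol68.main_general G hG hc X hX hsc x₀ Z hZ hZX hnd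

end Pool.Agent.Results.MP_c53807_ag.General
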